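import Pool.Agent.H8SY.Red

set_option autoImplicit false

namespace Pool.Agent.Results.MP_bb5d5a_al.SylowIYBNotIYB

/-- A group is an IYB-group if it is isomorphic to the multiplicative group of a left brace:
a type with an abelian group structure `+` and a group structure `*` such that
`a * (b + c) + a = a * b + a * c`. (For a finite group the brace is automatically finite.) -/
def IsIYB (G : Type) [Group G] : Prop :=
  ∃ (B : Type) (_ : AddCommGroup B) (_ : Group B),
    (∀ a b c : B, a * (b + c) + a = a * b + a * c) ∧ Nonempty (G ≃* B)

/-- There is a finite soluble group all of whose Sylow subgroups are IYB-groups and which is not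
an IYB-group. -/
theorem result : ∃ (G : Type) (_ : Group G) (_ : Finite G), Group.IsSolvable G ∧
    (∀ (p : ℕ) [Fact p.Prime] (S : Sylow p G), IsIYB S) ∧ ¬ IsIYB G :=
  ⟨Pool.Agent.H8SY.GG, inferInstance, inferInstance, Pool.Agent.H8SY.solvable_GG,
    fun p _ S => Pool.Agent.H8SY.sylow_IYB p S, Pool.Agent.H8SY.not_IYB⟩

end Pool.Agent.Results.MP_bb5d5a_al.SylowIYBNotIYB
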